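import Pool.Agent.Helper84.Coh.Interface

/-!
# Analytic higher coherent families are trivial

Every analytic `n`-coherent family is `n`-trivial, for all `n ≥ 1` (here `n = m + 1`): no witness
to the nonvanishing of the derived limits of the inverse system `A` is analytic.
-/

namespace Pool.Agent.Results.MP_d72269_lc.AnalyticTrivial

open Pool.Agent.Helper84.Coh

/-- For every `m`, each `(m+1)`-coherent family whose graph (extending its members by zero) is an
analytic set is `(m+1)`-trivial. -/
theorem result (m : ℕ) (Φ : Family (m + 1)) (hcoh : Φ.Coherent) (han : Φ.IsAnalytic) :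
    Φ.IsTriv :=
  family_triv m Φ hcoh han

end Pool.Agent.Results.MP_d72269_lc.AnalyticTrivial
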